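import Pool.Agent.AT3.Stmts3
import Pool.Agent.Helper35_K9.CHQ

open scoped BigOperators

noncomputable section

namespace Pool.Agent.PP.T3.H38

open Pool.Agent.Helper51_AWC Pool.Agent.Helper79_WRA Pool.Agent.PP Pool.Agent.PP.KF
open Pool.Agent.PP.K9 Pool.Agent.PP.K9.H97 Pool.Agent.PP.H75 Pool.Agent.PP.T3

attribute [local instance] Ideal.Quotient.field

/-- class sums with centraliser of order prime to `ℓ` are nilpotent on a block with a good
nontrivial `ℓ`-subgroup -/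
theorem nil_of_good' {F : Type} [Field F] {K : Type} [Group K] [Finite K] {ℓ : ℕ}
    [Fact ℓ.Prime] (hF : GoodF ℓ F) {γ : K → F} (hγ : IsBlk γ)
    {R : Subgroup K} (hRp : IsPGroup ℓ R) (hR : ℓ ∣ Nat.card R) (hg : Gd γ R) {x : K}
    (hx : ¬ ℓ ∣ Nat.card (Subgroup.centralizer ({x} : Set K))) :
    ∃ n : ℕ, (mulF (clsum F ⊤ x))^[n] γ = 0 := by
  rcases H50.blk_dich hγ (H50.isCl_clsum (F := F) x) with h | ⟨c, hc, h⟩
  · exact h
  exfalso
  have h1 : br R (clsum F ⊤ x) = (0 : K → F) := by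
    funext t
    by_cases ht : t ∈ Subgroup.centralizer (R : Set K)
    · rw [H66.br_of_mem ht]
      unfold clsum
      rw [if_neg]
      · rfl
      rintro ⟨q, _, rfl⟩
      apply hx
      have h2 : conjS q⁻¹ R ≤ Subgroup.centralizer ({x} : Set K) := by
        intro y hy
        rw [mem_conjS] at hy
        have h3 := Subgroup.mem_centralizer_iff.1 ht _ hy
        rw [Subgroup.mem_centralizer_singleton_iff]
        have h4 : q⁻¹ * (q⁻¹⁻¹ * y * q⁻¹ * (q * x * q⁻¹)) * q = q⁻¹ * (q * x * q⁻¹ * (q⁻¹⁻¹ * y * q⁻¹)) * q := by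
          rw [h3]
        have h5 : q⁻¹ * (q⁻¹⁻¹ * y * q⁻¹ * (q * x * q⁻¹)) * q = y * x := by group
        have h6 : q⁻¹ * (q * x * q⁻¹ * (q⁻¹⁻¹ * y * q⁻¹)) * q = x * y := by group
        rw [h5, h6] at h4
        exact h4
      have h3 := Subgroup.card_dvd_of_le h2
      rw [card_conjS] at h3
      exact hR.trans h3
    · exact H66.br_of_not_mem ht
  have h2 : IsCl (clsum F ⊤ x) := H50.isCl_clsum x
  have h3 : br R (mulF (mulF c (clsum F ⊤ x)) γ) = (0 : K → F) := by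
    rw [H66.br_mulF hF hRp (H66.IsCl.inv (H50.isCl_mulF hc h2) R) (H66.IsCl.inv hγ.1.1 R),
      H66.br_mulF hF hRp (H66.IsCl.inv hc R) (H66.IsCl.inv h2 R), h1,
      PP.H75.mulF_zero_right, PP.H75.mulF_zero_left]
  rw [h] at h3
  obtain ⟨t, ht, ht2⟩ := hg
  apply ht2
  rw [← H66.br_of_mem (a := γ) ht, h3]
  rfl

theorem pos : PosStmt := by
  intro ℓ hℓ F _ hF G _ _ e he V hV hV1 hg x _ hx
  rw [inf_top_eq] at hx
  refine nil_of_good' hF he hV ?_ hg hx
  obtain ⟨n, hn⟩ := (IsPGroup.iff_card).1 hV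
  rcases Nat.eq_zero_or_pos n with h0 | h0
  · rw [h0, pow_zero] at hn
    exact absurd (Subgroup.card_eq_one.1 hn) hV1
  · rw [hn]
    exact dvd_pow_self ℓ h0.ne'

end Pool.Agent.PP.T3.H38
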