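import Pool.Agent.AT3.Stmts2
import Pool.Agent.Helper97_K9.ORB
import Pool.Agent.Helper69_K9.Fmg

open scoped BigOperators

noncomputable section

namespace Pool.Agent.PP.T3.H38

open Pool.Agent.Helper51_AWC Pool.Agent.Helper79_WRA Pool.Agent.PP Pool.Agent.PP.KF
open Pool.Agent.PP.K9 Pool.Agent.PP.K9.H97 Pool.Agent.PP.H75 Pool.Agent.PP.T3

attribute [local instance] Ideal.Quotient.field

theorem gch (lcj : LcjStmt) : GchStmt := by
  intro ℓ hℓ M _ hM G _ _ e V γ γ₁ h h₁
  have hF : GoodF ℓ (FF M) := H50.fld ℓ hℓ.out M hM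
  obtain ⟨-, ⟨hb, -⟩, -⟩ := K9.H69.fmg ℓ M hM G e h.blk V h.tp
  have hXN : Subgroup.centralizer (V : Set G) ≤ Subgroup.normalizer (V : Set G) :=
    Subgroup.centralizer_le_normalizer _
  have hN : Subgroup.normalizer (V : Set G) ≤
      Subgroup.normalizer ((Subgroup.centralizer (V : Set G) : Subgroup G) : Set G) := by
    intro n hn
    have key : ∀ m : G, m ∈ Subgroup.normalizer (V : Set G) → ∀ c,
        c ∈ Subgroup.centralizer (V : Set G) → m * c * m⁻¹ ∈ Subgroup.centralizer (V : Set G) := by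
      intro m hm c hc
      rw [Subgroup.mem_centralizer_iff]
      intro v hv
      have h1 : m⁻¹ * v * m ∈ V := by
        have := (Subgroup.mem_normalizer_iff.1 (Subgroup.inv_mem _ hm) v).1 hv
        rwa [inv_inv] at this
      have h2 := Subgroup.mem_centralizer_iff.1 hc _ h1
      have h3 : m * (m⁻¹ * v * m * c) * m⁻¹ = m * (c * (m⁻¹ * v * m)) * m⁻¹ := by rw [h2]
      have h4 : m * (m⁻¹ * v * m * c) * m⁻¹ = v * (m * c * m⁻¹) := by group
      have h5 : m * (c * (m⁻¹ * v * m)) * m⁻¹ = m * c * m⁻¹ * v := by group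
      rw [h4, h5] at h3
      exact h3
    rw [Subgroup.mem_normalizer_iff]
    intro c
    refine ⟨key n hn c, fun hc => ?_⟩
    have h1 := key n⁻¹ (Subgroup.inv_mem _ hn) _ hc
    have h2 : n⁻¹ * (n * c * n⁻¹) * n⁻¹⁻¹ = c := by group
    rwa [h2] at h1
  obtain ⟨n, hn, hγ⟩ := orb_main hXN hN (f := br V e)
    ⟨fun x hx => H66.br_of_not_mem fun h2 => hx (hXN h2), hb⟩ h.gam h₁.gam h.und h₁.und
  have hconj : conjS n V = V := mem_normalizer_iff_conjS.1 hn
  obtain ⟨-, h2⟩ := lcj ℓ (FF M) hF G e V γ h n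
  rw [hconj, ← hγ] at h2
  exact h2

end Pool.Agent.PP.T3.H38
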