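import Pool.Agent.AT3.Stmts2

open scoped BigOperators

noncomputable section

namespace Pool.Agent.PP.T3.H38

open Pool.Agent.Helper51_AWC Pool.Agent.Helper79_WRA Pool.Agent.PP Pool.Agent.PP.KF
open Pool.Agent.PP.K9 Pool.Agent.PP.K9.H97 Pool.Agent.PP.H75 Pool.Agent.PP.T3

attribute [local instance] Ideal.Quotient.field

theorem lc_congr {G : Type} [Group G] {F : Type} [Field F] {e : G → F} {V : Subgroup G}
    {γ : G → F} {u v : G} {b : G → F} (h : Cu v = Cu u) (hL : Lc e V γ u b) : Lc e V γ v b := by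
  obtain ⟨h1, h2, h3⟩ := hL
  have key : ∀ C : Subgroup G, C = Cu u → Bx C b ∧
      mulF (fun t : C => e t) (fun t : C => b t) = fun t : C => b t := by
    rintro C rfl
    exact ⟨h1, h2⟩
  obtain ⟨k1, k2⟩ := key (Cu v) h
  exact ⟨k1, k2, h3⟩

theorem lpw : LpwStmt := by
  intro ℓ hℓ F _ hF G _ _ e V γ hL u hu b hb j hj
  have hp : ℓ.Prime := hℓ.out
  have hcop : j.Coprime (orderOf u) := by
    obtain ⟨n, hn⟩ := hL.tp.pg ⟨u, hu⟩
    have h1 : u ^ ℓ ^ n = 1 := congrArg Subtype.val hn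
    have h2 : orderOf u ∣ ℓ ^ n := orderOf_dvd_of_pow_eq_one h1
    have h3 : j.Coprime (ℓ ^ n) := Nat.Coprime.pow_right n ((Nat.Prime.coprime_iff_not_dvd hp).2 hj).symm
    exact h3.coprime_dvd_right h2
  obtain ⟨m, hm⟩ := exists_pow_eq_self_of_coprime hcop
  have hC : Cu (u ^ j) = Cu u := by
    ext g
    rw [Subgroup.mem_centralizer_singleton_iff, Subgroup.mem_centralizer_singleton_iff]
    constructor
    · intro h
      have h1 : Commute g (u ^ j) := h
      have h2 := h1.pow_right m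
      rw [hm] at h2
      exact h2
    · intro h
      have h1 : Commute g u := h
      exact h1.pow_right j
  exact ⟨hC, lc_congr hC hb⟩

end Pool.Agent.PP.T3.H38
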